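import Pool.Agent.Y219.PC.CHD
import Pool.Agent.Erdos456.Mertens
import Pool.Agent.Y157.PC.Stm3

/-!
Project PC (helper157), job PC-CHQ: quantitative form of Chebotarev's theorem
(adapted from Pool/Agent/Y219/PC/CHD.lean of helper219).
-/

set_option autoImplicit false

open Finset Filter Topology NumberField

namespace Pool.Agent.Y287.PC

open Pool.Agent.Y157.PS Pool.Agent.Y157.PC Pool.Agent.W401.Cheb Pool.Agent.Y219.PC

open Classical in
lemma quant (T1 : Set ℕ) (hp : ∀ p ∈ T1, p.Prime) (c : ℝ) (hc : 0 < c)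
    (hT : ∃ N0 : ℕ, ∀ N, N0 ≤ N → c * (Nat.primeCounting N : ℝ) ≤
      (((range (N + 1)).filter fun k => k ∈ T1).card : ℝ)) :
    ∃ C : ℝ, ∀ N : ℕ, 3 ≤ N → c * Real.log (Real.log N) - C ≤
      ∑ p ∈ (range (N + 1)).filter (fun k => k ∈ T1), (1 / p : ℝ) := by
  obtain ⟨N0, hN0⟩ := hT
  obtain ⟨b, hb⟩ : ∃ b : ℕ → ℝ, b = fun n => (if n ∈ T1 then 1 else 0) -
    c * (if n.Prime then 1 else 0) := ⟨_, rfl⟩
  have hsum : ∀ N, ∑ k ∈ range (N + 1), b k =
      (((range (N + 1)).filter fun k => k ∈ T1).card : ℝ) - c * (Nat.primeCounting N : ℝ) := by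
    intro N
    rw [hb]
    simp only
    rw [sum_sub_distrib, ← mul_sum, sum_boole, sum_boole]
    rw [Nat.primeCounting, Nat.primeCounting', Nat.count_eq_card_filter_range]
  obtain ⟨C, hC⟩ : ∃ C : ℝ, C = c * (Nat.primeCounting N0 : ℝ) := ⟨_, rfl⟩
  have hC0 : 0 ≤ C := by rw [hC]; positivity
  have hB : ∀ N, -C ≤ ∑ k ∈ range (N + 1), b k := by
    intro N
    rw [hsum]
    rcases le_total N0 N with h | h
    · have := hN0 N h
      linarith
    · have h1 : (Nat.primeCounting N : ℝ) ≤ Nat.primeCounting N0 := by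
        exact_mod_cast Nat.monotone_primeCounting h
      have h2 : c * (Nat.primeCounting N : ℝ) ≤ C := by
        rw [hC]; exact mul_le_mul_of_nonneg_left h1 hc.le
      have h3 : (0 : ℝ) ≤ (((range (N + 1)).filter fun k => k ∈ T1).card : ℝ) := by positivity
      linarith
  have h0 : b 0 = 0 := by
    rw [hb]
    have : (0 : ℕ) ∉ T1 := fun h => by
      have := hp 0 h
      exact absurd this (by norm_num)
    simp [this, Nat.not_prime_zero]
  have hS : ∀ N, -C ≤ ∑ k ∈ range (N + 1), b k / k := by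
    intro N
    have h1 := abel b C h0 hB N
    have h2 := hB N
    have hN : (0 : ℝ) < (N : ℝ) + 1 := by positivity
    have h3 : 0 ≤ (C + ∑ k ∈ range (N + 1), b k) / ((N : ℝ) + 1) := div_nonneg (by linarith) hN.le
    have h4 : -C * (1 - 1 / (N + 1 : ℝ)) + (∑ k ∈ range (N + 1), b k) / (N + 1 : ℝ) =
        -C + (C + ∑ k ∈ range (N + 1), b k) / ((N : ℝ) + 1) := by ring
    linarith
  obtain ⟨C', hC'⟩ := Pool.Agent.Erdos456.Mert.mertens_inv
  refine ⟨C + c * C', fun N hN3 => ?_⟩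
  have hM := (abs_le.1 (hC' N hN3)).1
  have hset : (range (N + 1)).filter Nat.Prime = (Finset.Icc 1 N).filter Nat.Prime := by
    ext k
    simp only [mem_filter, mem_range, Finset.mem_Icc]
    constructor
    · rintro ⟨h1, h2⟩
      exact ⟨⟨h2.pos, by omega⟩, h2⟩
    · rintro ⟨h1, h2⟩
      exact ⟨by omega, h2⟩
  rw [sum_filter]
  have h5 := hS N
  have h6 : ∑ k ∈ range (N + 1), b k / k = (∑ k ∈ range (N + 1), if k ∈ T1 then (1 / k : ℝ) else 0) -
      (∑ p ∈ (Finset.Icc 1 N).filter Nat.Prime, (1 : ℝ) / p) * c := by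
    rw [← hset, sum_filter, sum_mul, ← sum_sub_distrib]
    refine sum_congr rfl fun k _ => ?_
    rw [hb]
    simp only []
    split_ifs <;> ring
  have h7 := mul_le_mul_of_nonneg_right hM hc.le
  nlinarith

open Classical in
lemma cheb_quant (L : Type) [Field L] [NumberField L] [IsGalois ℚ L] (g : Gal(L/ℚ))
    (S : Finset ℕ) : ∃ δ : ℝ, 0 < δ ∧ ∃ C : ℝ, ∀ N : ℕ, 3 ≤ N →
      ∃ T : Finset ℕ, (∀ p ∈ T, p ≤ N ∧ p.Prime ∧ p ∉ S ∧ xp L g p ≠ 0) ∧
        δ * Real.log (Real.log N) - C ≤ ∑ p ∈ T, (1 / p : ℝ) := by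
  obtain ⟨D, hD, htor⟩ := torsor L
  obtain ⟨D', hD'⟩ : ∃ D', D' = D * ∏ s ∈ S, (if s = 0 then 1 else s) := ⟨_, rfl⟩
  have hD'0 : 0 < D' := by
    rw [hD']
    refine Nat.mul_pos hD (Finset.prod_pos fun s _ => ?_)
    split_ifs <;> omega
  have hD'd : ∀ p : ℕ, p.Prime → ¬ p ∣ D' → ¬ p ∣ D ∧ p ∉ S := by
    intro p hp h
    refine ⟨fun h1 => h (by rw [hD']; exact Dvd.dvd.mul_right h1 _), fun h1 => h ?_⟩
    rw [hD']
    refine Dvd.dvd.mul_left ?_ _
    have h2 := Finset.dvd_prod_of_mem (fun s => if s = 0 then 1 else s) h1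
    rwa [if_neg hp.ne_zero] at h2
  obtain ⟨T1, hT1⟩ : ∃ T1 : Set ℕ, T1 = {p | p.Prime ∧ ¬ p ∣ D ∧ p ∉ S ∧ xp L g p ≠ 0} := ⟨_, rfl⟩
  obtain ⟨m, hm⟩ : ∃ m, m = Nat.card Gal(L/ℚ) := ⟨_, rfl⟩
  have hm0 : 0 < m := by rw [hm]; exact Nat.card_pos
  have hxp : ∀ p ∈ T1, xp L g p ≤ m := by
    intro p hp
    rw [hT1] at hp
    have : Fact p.Prime := ⟨hp.1⟩
    have h1 : Nat.card (𝓞 L →+* AlgebraicClosure (ZMod p)) = Nat.card Gal(L/ℚ) :=
      (htor p hp.2.1).1
    unfold xp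
    rw [dif_pos hp.1, hm, ← h1]
    have hfin : Finite (𝓞 L →+* AlgebraicClosure (ZMod p)) :=
      Nat.finite_of_card_ne_zero (by rw [h1, ← hm]; omega)
    exact Nat.card_le_card_of_injective _ Subtype.val_injective
  have hM : Tendsto (M fun p => if p ∈ T1 then (xp L g p : ℝ) else 0) atTop (𝓝 1) := by
    refine M_congr hD'0 (b := fun p => (xp L g p : ℝ)) ?_ (chebotarev L g)
    intro p hp hpD
    obtain ⟨h1, h2⟩ := hD'd p hp hpD
    by_cases h3 : xp L g p = 0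
    · rw [h3]; simp
    · rw [if_pos]
      rw [hT1]; exact ⟨hp, h1, h2, h3⟩
  have hpm : ∀ p ∈ T1, p.Prime := fun p hp => by rw [hT1] at hp; exact hp.1
  obtain ⟨C, hC⟩ := quant T1 hpm (1 / (2 * m)) (by positivity) (by
    have h1 := hM.eventually (lt_mem_nhds (by norm_num : (1 / 2 : ℝ) < 1))
    have h2 := (h1.and (tendsto_pc.eventually (eventually_gt_atTop 0)))
    obtain ⟨N0, hN0⟩ := eventually_atTop.1 h2
    refine ⟨N0, fun N hN => ?_⟩
    obtain ⟨h3, h4⟩ := hN0 N hN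
    unfold M at h3
    rw [lt_div_iff₀ h4] at h3
    have h5 : ∑ p ∈ pr N, (if p ∈ T1 then (xp L g p : ℝ) else 0) ≤
        m * (((range (N + 1)).filter fun k => k ∈ T1).card : ℝ) := by
      rw [← sum_filter]
      have h6 : (pr N).filter (fun k => k ∈ T1) ⊆ (range (N + 1)).filter fun k => k ∈ T1 := by
        intro k hk
        rw [mem_filter] at hk ⊢
        exact ⟨(mem_filter.1 hk.1).1, hk.2⟩
      calc ∑ p ∈ (pr N).filter (fun k => k ∈ T1), (xp L g p : ℝ)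
          ≤ ∑ p ∈ (pr N).filter (fun k => k ∈ T1), (m : ℝ) := by
            refine sum_le_sum fun p hp => ?_
            exact_mod_cast hxp p (mem_filter.1 hp).2
        _ ≤ ∑ p ∈ (range (N + 1)).filter (fun k => k ∈ T1), (m : ℝ) :=
            sum_le_sum_of_subset_of_nonneg h6 (fun _ _ _ => by positivity)
        _ = _ := by rw [sum_const, nsmul_eq_mul, mul_comm]
    have hmr : (0 : ℝ) < m := by exact_mod_cast hm0
    rw [div_mul_eq_mul_div, one_mul, div_le_iff₀ (by positivity)]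
    linarith)
  refine ⟨1 / (2 * m), by positivity, C, fun N hN => ⟨_, fun p hp => ?_, hC N hN⟩⟩
  rw [mem_filter, mem_range] at hp
  have := hp.2
  rw [hT1] at this
  exact ⟨by omega, this.1, this.2.2.1, this.2.2.2⟩

theorem chq : S_CHQ := by
  intro κ _ _ _ S E hE σ₀
  have hn : Normal ℚ κ := IsAlgClosure.normal ℚ κ
  obtain ⟨E', hfin, hnor, hle⟩ := exists_nc ℚ κ E hE
  have hnf : NumberField E' :=
    @NumberField.of_module_finite ℚ E' _ _ _ (IntermediateField.algebra' E') hfin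
  have e : (IntermediateField.algebra' E' : Algebra ℚ E') = DivisionRing.toRatAlgebra :=
    Subsingleton.elim _ _
  have hgal : @IsGalois ℚ _ E' _ DivisionRing.toRatAlgebra := by
    rw [← e]
    exact @IsGalois.mk ℚ _ E' _ (IntermediateField.algebra' E') inferInstance hnor
  obtain ⟨g0, hg0⟩ : ∃ g0 : E' ≃+* E', ∀ z : E', ((g0 z : E') : κ) = σ₀ z :=
    ⟨(σ₀.restrictNormal E').toRingEquiv, fun z => AlgEquiv.restrictNormal_commutes σ₀ E' z⟩
  obtain ⟨g, hg⟩ : ∃ g : Gal(E'/ℚ), ∀ z : E', ((g z : E') : κ) = σ₀ z :=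
    ⟨AlgEquiv.ofRingEquiv (f := g0) (fun r => by simp), hg0⟩
  obtain ⟨δ, hδ, C, hC⟩ := cheb_quant E' g S
  refine ⟨δ, max C 0, hδ, fun X hX => ?_⟩
  rcases Nat.lt_or_ge X 3 with h3 | h3
  · have hX2 : X = 2 := by omega
    refine ⟨∅, fun p hp => absurd hp (Finset.notMem_empty p), ?_⟩
    rw [Finset.sum_empty, hX2]
    have h1 : Real.log (Real.log (2 : ℕ)) ≤ 0 := by
      refine Real.log_nonpos (Real.log_nonneg (by norm_num)) ?_
      have := Real.log_two_lt_d9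
      push_cast
      linarith
    have h2 := le_max_right C 0
    have h4 : δ * Real.log (Real.log (2 : ℕ)) ≤ 0 := mul_nonpos_of_nonneg_of_nonpos hδ.le h1
    linarith
  · obtain ⟨T, hT, hTB⟩ := hC X h3
    refine ⟨T, fun p hp => ?_, by linarith [le_max_left C 0]⟩
    obtain ⟨hpX, hpp, hpS, hx⟩ := hT p hp
    have : Fact p.Prime := ⟨hpp⟩
    unfold xp at hx
    rw [dif_pos hpp] at hx
    obtain ⟨⟨φ, hφ⟩⟩ : Nonempty {φ : 𝓞 E' →+* AlgebraicClosure (ZMod p) //
        HasFrob p φ g} := by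
      by_contra h
      rw [not_nonempty_iff] at h
      exact hx Nat.card_of_isEmpty
    obtain ⟨V, hV, φ', hφ', h⟩ := arith κ E' σ₀ g hg p φ hφ
    exact ⟨⟨hpp, hpS, V, hV, φ', hφ', fun z hz => h z (hle hz)⟩, hpX⟩

end Pool.Agent.Y287.PC
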